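import Mathlib
import Pool.Agent.TH689.BBFinal
import Pool.Agent.TH689.BBUpper

/-!
# The strong exponential time hypothesis for branch-and-bound with linear programming relaxations

A scheme of relaxations (`Relaxation n s r`) gives a linear program for every CNF formula `F` with
`n` variables: `s` inequalities and any number of equations, which are the same for all formulas,
and `r` inequalities for every clause of `F`. Every assignment `x` is represented by a vector
`point x`, which solves the linear program of `F` if `x` satisfies `F`. Examples are the usual
relaxation in the unit cube, lifted relaxations (Sherali-Adams, Lovász-Schrijver, ...), all extended
formulations. Branch-and-bound (`Relaxation.Refutes`) divides the assignments by branching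
inequalities from a fixed list of `N` inequalities (the list may be huge, so this includes all
inequalities with polynomially many bits in the original or lifted variables), at depth at most `h`,
until the linear program together with the inequalities of the branch has no solution (pruning by
infeasibility), or no solution for which the value of an objective function, which gives the number
of falsified clauses at the vectors of the assignments, is near `0` (pruning by bound).

Exhaustive search is of this kind, with `2 ^ n` leaves (second part of the theorem). We show that
the number of leaves times the number of inequalities is at least `2 ^ ((1 - ε) n)` for all schemes,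
if leaves can be recognized with precision `2 ^ (- n / c)`, that is, if the linear programs of the
leaves still have no solution when the inequalities of the clauses may be violated by
`2 ^ (- n / c)`, and the objective function may have this value. The case of one leaf says that
extended formulations for the maximum satisfiability problem need `2 ^ ((1 - ε) n)` inequalities
even if they only have to distinguish satisfiable formulas from formulas for which every assignment
falsifies many clauses, with exponentially small error. The formula `F` has `n` variables, `m` clauses with at most `log m` literals, where
`m` may be any number which is at least `n ^ c`, at least `((h + 1) (log N + 1)) ^ c`, and at most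
`2 ^ (n / c)`; every assignment falsifies at least `n / (c log m)` of the clauses.

Proof. The formulas say that `K` pigeons sit in `K - 1` holes without collisions; the hole of the
`i`-th pigeon is given by an arbitrary table at a position given by the `i`-th block of
`n / K = O(log m)` variables. By Farkas' lemma a refutation gives a representation of the number of
falsified clauses, as a function of the assignment, as a positive constant plus a nonnegative
combination of few functions from a library which does not depend on the tables. A signed measure
(under which any `K - 1` pigeons sit in distinct holes) has negative pairing with the number of
falsified clauses minus the constant, and nearly nonnegative pairing with all products of a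
nonnegative function of the tables and a nonnegative function of the assignment; a table is bad for
a function of the library with doubly exponentially small probability only, so the size of the
library does not matter.
-/

set_option autoImplicit false

namespace Pool.Agent.Results.MP_c62aed_lc.BranchAndBoundLP

open Pool.Agent.H538R2.SB Pool.Agent.TH689.LX Pool.Agent.TH689.BB

theorem result :
    (∀ ε : ℝ, 0 < ε → ∃ c : ℕ, 1 ≤ c ∧ ∀ n m h N s r : ℕ, c ≤ n → n ^ c ≤ m → m ^ c ≤ 2 ^ n →
      ((h + 1) * (Nat.log 2 N + 1)) ^ c ≤ m →
      ∀ (P : Relaxation n s r) (cut : Fin N → (Fin P.d → ℝ) × ℝ),
      ∃ F : Finset (Clause n), F.card ≤ m ∧ (∀ C ∈ F, 2 ^ C.card ≤ m) ∧
        (∀ x, n ≤ c * Nat.log 2 m * falsified F x) ∧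
        ∀ t : ℕ, P.Refutes cut F t h ((2 : ℝ) ^ (-((n : ℝ) / c))) →
          (2 : ℝ) ^ ((1 - ε) * n) ≤ t * (s + r + 1)) ∧
    (∀ n : ℕ, ∃ (P : Relaxation n (2 * n) 1) (cut : Fin (2 * n) → (Fin P.d → ℝ) × ℝ),
      ∀ F : Finset (Clause n), (∀ x, ∃ C ∈ F, FalseAt C x) →
        P.Refutes cut F (2 ^ n) n (1 / 2)) :=
  ⟨bb_main, bb_upper⟩

end Pool.Agent.Results.MP_c62aed_lc.BranchAndBoundLP
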