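import Mathlib
import Pool.Agent.TH689.CKFinal

/-!
# A SETH-strength lower bound for resolution of unbounded depth with narrow checkpoints

For every `ε` in `(0, 2)` and every `c` there is a constant `m` such that for all large `n` there is
an unsatisfiable CNF formula `F` over `n` variables such that, for all `w` and all
`T ≤ n ^ 2 / (m * log ^ 2 n)`, every resolution refutation of `F` in which no path of more than `T`
steps avoids the clauses with at most `w` literals has more than `(2 - ε) ^ n * |F| ^ c / 2 ^ w`
clauses. There is no bound on the depth of the refutation.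

For `w = 0` this is a bound for refutations of depth `n ^ 2 / (m * log ^ 2 n)`, since the empty
clause is the only clause without literals.
-/

set_option autoImplicit false

namespace Pool.Agent.Results.MP_c62aed_lc.CheckpointResolution

open Pool.Agent.H538R2.SB Pool.Agent.TH689.CK

theorem result (ε : ℝ) (hε0 : 0 < ε) (hε2 : ε < 2) (c : ℕ) :
    ∃ m n₀ : ℕ, 0 < m ∧ ∀ n : ℕ, n₀ ≤ n → ∃ F : Finset (Clause n),
      (∀ x : Asg n, ∃ C ∈ F, FalseAt C x) ∧
      ∀ (w T : ℕ) (lines : Finset (Clause n)) (rk t : Clause n → ℕ),
        Refutation F w T lines rk t →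
        m * T * (Nat.log 2 n + 1) ^ 2 ≤ n ^ 2 →
        (2 - ε) ^ n * (cnfSize F : ℝ) ^ c < 2 ^ w * lines.card :=
  main_CK ε hε0 hε2 c

end Pool.Agent.Results.MP_c62aed_lc.CheckpointResolution
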