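import Pool.Agent.TH678.SETH.Final

/-!
# The exact gauge of the oracles relative to which the strong exponential time hypothesis fails

The strong exponential time hypothesis says that for no `δ < 1` the satisfiability of CNF formulas
with `n` variables and of length `ℓ` is decided in time `2 ^ (δ n) poly(ℓ)`. Relative to an oracle
`A` it says the same of the parametrized search problems `IsParN A`, where `par y` is the number of
variables of the instance `y`.

For every gauge `f`, the following three sets of oracles are null sets for `f` under the same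
condition, namely that for every `ε > 0` there are infinitely many `N` with
`f N ≤ 2 ^ (log N) ^ ε`: the oracles relative to which the hypothesis fails; those relative to which
it fails and `P = NP`; those relative to which it fails and `P ≠ NP`. The same holds for every set of
oracles relative to all of whose members the complements of the parametrized search problems are in
nonuniform nondeterministic time `2 ^ (δ n) poly(ℓ)` for some `δ < 1` (the nondeterministic strong
exponential time hypothesis fails), and which contains either all the oracles with `P = PSPACE`, or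
all those with `NP ⊄ coNP/poly` for which the parametrized search problems are decided in time
`2 ^ (δ n) poly(ℓ)` for every `δ > 0`.
-/

set_option autoImplicit false

namespace Pool.Agent.Results.MP_c62aed_lc.GaugeThreshold

open Pool.Agent.NPC Pool.Agent.H620R2.Gauge Pool.Agent.TH678.SETH

theorem result (f : ℕ → ℝ) :
    (∀ O : Set Oracle,
      ((∀ A : Oracle, (∀ L, IsPSPACE A L → IsP A L) → A ∈ O) ∨
        (∀ A : Oracle, (∀ δ : ℝ, 0 < δ → ∀ L, IsParN A L → InDet δ A L) →
          (∃ L, IsNP A L ∧ ¬ WithAdvice (IsNP A) Lᶜ) → A ∈ O)) →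
      (∀ A ∈ O, ∃ δ : ℝ, δ < 1 ∧ ∀ L, IsParN A L → InCoN δ A L) →
      (Null f O ↔
        ∀ ε : ℝ, 0 < ε → ∃ᶠ N : ℕ in Filter.atTop, f N ≤ 2 ^ (Real.logb 2 N) ^ ε)) ∧
    (Null f {A : Oracle | ∃ δ : ℝ, δ < 1 ∧ ∀ L, IsParN A L → InDet δ A L} ↔
      ∀ ε : ℝ, 0 < ε → ∃ᶠ N : ℕ in Filter.atTop, f N ≤ 2 ^ (Real.logb 2 N) ^ ε) ∧
    (Null f {A : Oracle | (∃ δ : ℝ, δ < 1 ∧ ∀ L, IsParN A L → InDet δ A L) ∧
        ∀ L, IsP A L ↔ IsNP A L} ↔
      ∀ ε : ℝ, 0 < ε → ∃ᶠ N : ℕ in Filter.atTop, f N ≤ 2 ^ (Real.logb 2 N) ^ ε) ∧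
    (Null f {A : Oracle | (∃ δ : ℝ, δ < 1 ∧ ∀ L, IsParN A L → InDet δ A L) ∧
        ¬ ∀ L, IsP A L ↔ IsNP A L} ↔
      ∀ ε : ℝ, 0 < ε → ∃ᶠ N : ℕ in Filter.atTop, f N ≤ 2 ^ (Real.logb 2 N) ^ ε) :=
  Pool.Agent.TH678.SETH.main f

end Pool.Agent.Results.MP_c62aed_lc.GaugeThreshold
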