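import Mathlib
import Pool.Agent.TH689.SMFinal

/-!
# Semidefinite formulations of Max-SAT need size `2^((1/2-ε)n)`

A restricted model of exact algorithms for satisfiability: (mixed-binary) semidefinite programming
formulations of the maximum satisfiability problem, whose feasible region depends only on the
number of variables and whose objective function may depend in an arbitrary way on the formula.
For all `ε > 0` and all `a`, already for formulas with `n ^ O(1)` clauses of width `O(log n)` and
with an additive error `n ^ a`, the number `2 ^ k * (r + 1)` (`k` binary variables, positive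
semidefinite matrix of order `r`) is at least `2 ^ ((1/2 - ε) n)`.
-/

set_option autoImplicit false

namespace Pool.Agent.Results.MP_c62aed_lc.SemidefiniteMaxSat

open Pool.Agent.TH689.SM

theorem result :
    (∀ ε : ℝ, 0 < ε → ∀ a : ℕ, ∃ c n₀ : ℕ, ∀ n : ℕ, n₀ ≤ n → ∀ k r : ℕ,
      Nonempty (MaxSatSDP n k r (n ^ a)
        {F | F.card ≤ n ^ c ∧ ∀ C ∈ F, C.card ≤ c * Nat.log 2 n}) →
      (2 : ℝ) ^ ((1 / 2 - ε) * n) ≤ 2 ^ k * (r + 1)) ∧
    (∀ n : ℕ, Nonempty (MaxSatSDP n 0 (2 ^ n) 0 Set.univ)) :=
  ⟨sm_main, sm_upper⟩

end Pool.Agent.Results.MP_c62aed_lc.SemidefiniteMaxSat
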